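import Pool.Agent.H127R3.Ulr.Gen
import Pool.Agent.H944R2.U.NoDatum
import Pool.Agent.H873R2.U.EF5
import Pool.Agent.H227R2.D4a
import Pool.Agent.H613R2.EF.Gen

/-!
# MP_cf0da3_ag: a projective variety without Ulrich sheaf (matrix form)

The ring `RS k` of TEAM ULRICH (helper944, helper946) is the homogeneous coordinate ring of a smooth
projective surface in `ℙ^21`; `noDatum` says that it has no Ulrich module.
-/

set_option autoImplicit false

open MvPolynomial HomogeneousIdeal H946E H944U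

namespace Pool.Agent.H127R3.Ulr

attribute [local instance] MvPolynomial.gradedAlgebra

theorem fin (k : Type) [Field k] [IsAlgClosed k] [CharZero k] :
    ∃ P : Ideal (MvPolynomial (Fin (21 + 1)) k),
      P.IsPrime ∧
      (∀ f ∈ P, ∀ n : ℕ, MvPolynomial.homogeneousComponent n f ∈ P) ∧
      (∃ j : Fin (21 + 1), (MvPolynomial.X j : MvPolynomial (Fin (21 + 1)) k) ∉ P) ∧
      ¬ ∃ (d : ℕ) (ℓ : Fin (d + 1) → MvPolynomial (Fin (21 + 1)) k),
        (∀ i, (ℓ i).IsHomogeneous 1) ∧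
        Function.Injective
          (MvPolynomial.aeval (fun i => Ideal.Quotient.mk P (ℓ i)) :
            MvPolynomial (Fin (d + 1)) k →ₐ[k] MvPolynomial (Fin (21 + 1)) k ⧸ P) ∧
        (MvPolynomial.aeval (fun i => Ideal.Quotient.mk P (ℓ i)) :
            MvPolynomial (Fin (d + 1)) k →ₐ[k] MvPolynomial (Fin (21 + 1)) k ⧸ P).toRingHom.Finite ∧
        ∃ (r : ℕ) (ψ : MvPolynomial (Fin (21 + 1)) k →ₐ[k]
            Matrix (Fin r) (Fin r) (MvPolynomial (Fin (d + 1)) k)),
          0 < r ∧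
          (∀ (j : Fin (21 + 1)) (a b : Fin r), ((ψ (MvPolynomial.X j)) a b).IsHomogeneous 1) ∧
          (∀ f ∈ P, ψ f = 0) ∧
          (∀ i : Fin (d + 1), ψ (ℓ i) = Matrix.diagonal (fun _ => MvPolynomial.X i)) := by
  obtain ⟨φ, hφ, hc⟩ := Pool.Agent.H613R2.EF.EGEN22 k
  have h7 : (7 : k) ≠ 0 := by
    exact_mod_cast (show ((7 : ℕ) : k) ≠ 0 from Nat.cast_ne_zero.mpr (by norm_num))
  have hdom : IsDomain (RS k) := (H946F.NORM k h7).2.1
  have hgood := H946F.GOOD k (fun i h0 _ => Nat.cast_ne_zero.mpr (by omega))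
  obtain ⟨v, hv, hvrad⟩ := H873.EXV k
  have hgen := Pool.Agent.H613R2.EF.EGEN k
  have hvfin := H227R2.D4a (ℬ := RA k) v hv hgen hvrad
  have hvG := hgood v hv hvfin
  exact core (RA k) (21 + 1) φ hφ hc v hvG.inj hvfin
    (fun w hw hwf m hm D => noDatum k w hw hwf m hm D)

end Pool.Agent.H127R3.Ulr
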