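import Mathlib
import Pool.Agent.H944R2.U.Defs

/-!
# MP_cf0da3_ag: general lemmas (dimension by transcendence degree, entries of matrices)
-/

set_option autoImplicit false

open MvPolynomial H944U

namespace Pool.Agent.H127R3.Ulr

/-- two finite injective parametrisations of a domain by polynomial rings have the same number of
variables -/
theorem card_eq {k R : Type} [Field k] [CommRing R] [IsDomain R] [Algebra k R] (a b : ℕ)
    (x : Fin a → R) (y : Fin b → R)
    (hx : Function.Injective (aeval x : MvPolynomial (Fin a) k →ₐ[k] R))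
    (hxf : (aeval x : MvPolynomial (Fin a) k →ₐ[k] R).toRingHom.Finite)
    (hy : Function.Injective (aeval y : MvPolynomial (Fin b) k →ₐ[k] R))
    (hyf : (aeval y : MvPolynomial (Fin b) k →ₐ[k] R).toRingHom.Finite) : a = b := by
  have key : ∀ (n : ℕ) (z : Fin n → R),
      Function.Injective (aeval z : MvPolynomial (Fin n) k →ₐ[k] R) →
      (aeval z : MvPolynomial (Fin n) k →ₐ[k] R).toRingHom.Finite →
      IsTranscendenceBasis k z := by
    intro n z hz hzf
    have hind : AlgebraicIndependent k z := hz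
    rw [hind.isTranscendenceBasis_iff_isAlgebraic]
    refine ⟨fun r => ?_⟩
    have hint : IsIntegral (Algebra.adjoin k (Set.range z)) r := by
      obtain ⟨p, hp, hpr⟩ := hzf.to_isIntegral r
      have hmem : ∀ q : MvPolynomial (Fin n) k,
          (aeval z : MvPolynomial (Fin n) k →ₐ[k] R) q ∈ Algebra.adjoin k (Set.range z) := by
        intro q
        rw [Algebra.adjoin_range_eq_range_aeval]
        exact ⟨q, rfl⟩
      let g : MvPolynomial (Fin n) k →ₐ[k] Algebra.adjoin k (Set.range z) :=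
        (aeval z : MvPolynomial (Fin n) k →ₐ[k] R).codRestrict _ hmem
      refine ⟨p.map g.toRingHom, hp.map _, ?_⟩
      rw [Polynomial.eval₂_map]
      exact hpr
    exact hint.isAlgebraic
  have h1 := (key a x hx hxf).cardinalMk_eq (key b y hy hyf)
  simpa using h1

section entries

variable {k : Type} [Field k] {σ τ : Type} {r : ℕ}
  (ψ : MvPolynomial σ k →ₐ[k] Matrix (Fin r) (Fin r) (MvPolynomial τ k))

theorem entries_monomial (hψ : ∀ (j : σ) (a b : Fin r), ((ψ (X j)) a b).IsHomogeneous 1)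
    (s : σ →₀ ℕ) (c : k) :
    ∃ n, (monomial s c : MvPolynomial σ k).IsHomogeneous n ∧
      ∀ a b, (ψ (monomial s c) a b).IsHomogeneous n := by
  refine MvPolynomial.induction_on_monomial
    (motive := fun p : MvPolynomial σ k => ∃ n, p.IsHomogeneous n ∧
      ∀ a b, (ψ p a b).IsHomogeneous n) ?_ ?_ s c
  · intro c
    refine ⟨0, isHomogeneous_C _ c, ?_⟩
    intro a b
    have h : ψ (C c) = algebraMap k _ c := ψ.commutes c
    rw [h, Matrix.algebraMap_matrix_apply]
    split_ifs
    · exact isHomogeneous_C _ c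
    · exact isHomogeneous_zero _ _ _
  · rintro p j ⟨n, hn, hn'⟩
    refine ⟨n + 1, hn.mul (isHomogeneous_X k j), ?_⟩
    intro a b
    rw [map_mul, Matrix.mul_apply]
    exact IsHomogeneous.sum _ _ _ fun i _ => (hn' a i).mul (hψ j i b)

/-- if the variables act by matrices of linear forms, forms of degree `n` act by matrices of forms
of degree `n` -/
theorem entries (hψ : ∀ (j : σ) (a b : Fin r), ((ψ (X j)) a b).IsHomogeneous 1)
    (n : ℕ) (f : MvPolynomial σ k) (hf : f.IsHomogeneous n) (a b : Fin r) :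
    (ψ f a b).IsHomogeneous n := by
  classical
  rw [f.as_sum, map_sum, Matrix.sum_apply]
  refine IsHomogeneous.sum _ _ _ fun d hd => ?_
  obtain ⟨n', h1, h2⟩ := entries_monomial ψ hψ d (coeff d f)
  have hne : (monomial d (coeff d f) : MvPolynomial σ k) ≠ 0 := by
    rw [Ne, monomial_eq_zero]
    exact mem_support_iff.1 hd
  have hd' : (monomial d (coeff d f) : MvPolynomial σ k).IsHomogeneous n := by
    apply isHomogeneous_monomial
    have := hf (mem_support_iff.1 hd)
    rw [Finsupp.degree_eq_weight_one]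
    exact this
  have : n' = n := h1.inj_right hd' hne
  rw [← this]
  exact h2 a b

end entries

section core

attribute [local instance] MvPolynomial.gradedAlgebra

variable {k R : Type} [Field k] [CommRing R] [IsDomain R] [Algebra k R]
  (𝒜 : ℕ → Submodule k R) [GradedAlgebra 𝒜]

theorem core (N : ℕ) (φ : homogeneousSubmodule (Fin N) k →+*ᵍ 𝒜) (hφ : Function.Surjective φ)
    (hc : ∀ c : k, φ (C c) = algebraMap k R c) (v : Fin 3 → R)
    (hvinj : Function.Injective (aeval v : MvPolynomial (Fin 3) k →ₐ[k] R))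
    (hvfin : (aeval v : MvPolynomial (Fin 3) k →ₐ[k] R).toRingHom.Finite)
    (hno : ∀ w : Fin 3 → R, (∀ i, w i ∈ 𝒜 1) →
      (aeval w : MvPolynomial (Fin 3) k →ₐ[k] R).toRingHom.Finite →
      ∀ m : ℕ, 0 < m → Datum 𝒜 w m → False) :
    ∃ P : Ideal (MvPolynomial (Fin N) k),
      P.IsPrime ∧
      (∀ f ∈ P, ∀ n : ℕ, MvPolynomial.homogeneousComponent n f ∈ P) ∧
      (∃ j : Fin N, (MvPolynomial.X j : MvPolynomial (Fin N) k) ∉ P) ∧
      ¬ ∃ (d : ℕ) (ℓ : Fin (d + 1) → MvPolynomial (Fin N) k),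
        (∀ i, (ℓ i).IsHomogeneous 1) ∧
        Function.Injective
          (MvPolynomial.aeval (fun i => Ideal.Quotient.mk P (ℓ i)) :
            MvPolynomial (Fin (d + 1)) k →ₐ[k] MvPolynomial (Fin N) k ⧸ P) ∧
        (MvPolynomial.aeval (fun i => Ideal.Quotient.mk P (ℓ i)) :
            MvPolynomial (Fin (d + 1)) k →ₐ[k] MvPolynomial (Fin N) k ⧸ P).toRingHom.Finite ∧
        ∃ (r : ℕ) (ψ : MvPolynomial (Fin N) k →ₐ[k]
            Matrix (Fin r) (Fin r) (MvPolynomial (Fin (d + 1)) k)),
          0 < r ∧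
          (∀ (j : Fin N) (a b : Fin r), ((ψ (MvPolynomial.X j)) a b).IsHomogeneous 1) ∧
          (∀ f ∈ P, ψ f = 0) ∧
          (∀ i : Fin (d + 1), ψ (ℓ i) = Matrix.diagonal (fun _ => MvPolynomial.X i)) := by
  -- the surjection as an algebra homomorphism
  obtain ⟨Φ, hΦ⟩ : ∃ Φ : MvPolynomial (Fin N) k →ₐ[k] R, ∀ f, Φ f = φ f :=
    ⟨{ (φ : MvPolynomial (Fin N) k →+* R) with commutes' := hc }, fun _ => rfl⟩
  have hΦs : Function.Surjective Φ := by
    intro y
    obtain ⟨x, hx⟩ := hφ y
    exact ⟨x, by rw [hΦ, hx]⟩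
  have hcomp : ∀ (f : MvPolynomial (Fin N) k) (n : ℕ),
      Φ (homogeneousComponent n f) = (DirectSum.decompose 𝒜 (Φ f) n : R) := by
    intro f n
    have h2 := φ.map_directSumDecompose (x := f) (i := n)
    rw [hΦ, hΦ, ← h2]
    congr 1
    exact (MvPolynomial.decomposition.decompose'_apply f n).symm
  have hmem : ∀ (n : ℕ) (f : MvPolynomial (Fin N) k), f.IsHomogeneous n → Φ f ∈ 𝒜 n := by
    intro n f hf
    rw [hΦ]
    exact φ.map_mem hf
  refine ⟨RingHom.ker Φ, RingHom.ker_isPrime _, ?_, ?_, ?_⟩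
  · intro f hf n
    rw [RingHom.mem_ker] at hf ⊢
    rw [hcomp, hf]
    simp
  · by_contra hcon
    push Not at hcon
    have h1 : ∀ f : MvPolynomial (Fin N) k, Φ f = algebraMap k R (constantCoeff f) := by
      intro f
      induction f using MvPolynomial.induction_on with
      | C a => rw [constantCoeff_C, hΦ]; exact hc a
      | add p q hp hq => rw [map_add, hp, hq, map_add, map_add]
      | mul_X p j hp =>
        have := hcon j
        rw [RingHom.mem_ker] at this
        rw [map_mul, this, mul_zero, map_mul, constantCoeff_X, mul_zero, map_zero]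
    obtain ⟨f, hf⟩ := hΦs (v 0)
    have h2 : (aeval v : MvPolynomial (Fin 3) k →ₐ[k] R) (X 0) =
        (aeval v : MvPolynomial (Fin 3) k →ₐ[k] R) (C (constantCoeff f)) := by
      rw [aeval_X, aeval_C, ← hf, h1 f]
    have h3 := hvinj h2
    have h4 := congrArg (aeval (fun _ : Fin 3 => (constantCoeff f + 1 : k))) h3
    simp at h4
  · rintro ⟨d, ℓ, hℓ, hinj, hfin, r, ψ, hr, hψ1, hψ0, hψ2⟩
    obtain ⟨e, he⟩ : ∃ e : (MvPolynomial (Fin N) k ⧸ RingHom.ker Φ) ≃ₐ[k] R,
        ∀ f, e (Ideal.Quotient.mk (RingHom.ker Φ) f) = Φ f :=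
      ⟨Ideal.quotientKerAlgEquivOfSurjective hΦs, fun f => rfl⟩
    have hcomp2 : (aeval (fun i => Φ (ℓ i)) : MvPolynomial (Fin (d + 1)) k →ₐ[k] R) =
        (e : (MvPolynomial (Fin N) k ⧸ RingHom.ker Φ) →ₐ[k] R).comp
          (aeval (fun i => Ideal.Quotient.mk (RingHom.ker Φ) (ℓ i))) := by
      apply MvPolynomial.algHom_ext
      intro i
      rw [aeval_X, AlgHom.comp_apply, aeval_X]
      exact (he _).symm
    have hwinj : Function.Injective
        (aeval (fun i => Φ (ℓ i)) : MvPolynomial (Fin (d + 1)) k →ₐ[k] R) := by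
      rw [hcomp2]
      exact e.injective.comp hinj
    have hwfin : (aeval (fun i => Φ (ℓ i)) :
        MvPolynomial (Fin (d + 1)) k →ₐ[k] R).toRingHom.Finite := by
      rw [hcomp2]
      have hes : (e : (MvPolynomial (Fin N) k ⧸ RingHom.ker Φ) →ₐ[k] R).toRingHom.Finite :=
        RingHom.Finite.of_surjective _ e.surjective
      exact RingHom.Finite.comp hes hfin
    have hd : d + 1 = 3 := card_eq (d + 1) 3 _ v hwinj hwfin hvinj hvfin
    obtain rfl : d = 2 := by omega
    have hsymm : ∀ f, e.symm (Φ f) = Ideal.Quotient.mk (RingHom.ker Φ) f := by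
      intro f
      rw [AlgEquiv.symm_apply_eq, he]
    refine hno (fun i => Φ (ℓ i)) (fun i => hmem 1 _ (hℓ i)) hwfin r hr
      { ρ := (Ideal.Quotient.liftₐ (RingHom.ker Φ) ψ hψ0).comp
          (e.symm : R →ₐ[k] (MvPolynomial (Fin N) k ⧸ RingHom.ker Φ))
        lin := ?_
        deg := ?_ }
    · intro i
      rw [AlgHom.comp_apply]
      show (Ideal.Quotient.liftₐ (RingHom.ker Φ) ψ hψ0) (e.symm (Φ (ℓ i))) = _
      rw [hsymm]
      show ψ (ℓ i) = _
      rw [hψ2]
      rfl
    · intro n x hx a b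
      obtain ⟨f, hf⟩ := hΦs x
      have h2 : Φ (homogeneousComponent n f) = x := by
        rw [hcomp, hf]
        exact DirectSum.decompose_of_mem_same _ hx
      rw [AlgHom.comp_apply]
      show ((Ideal.Quotient.liftₐ (RingHom.ker Φ) ψ hψ0) (e.symm x) a b).IsHomogeneous n
      rw [← h2, hsymm]
      show (ψ (homogeneousComponent n f) a b).IsHomogeneous n
      exact entries ψ hψ1 n _ (homogeneousComponent_isHomogeneous n f) a b

end core

end Pool.Agent.H127R3.Ulr
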